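import Mathlib

namespace Pool.Agent.Results.MP_259de8_co.NoLog

/-- Euclidean `d`-space. -/
abbrev E (d : ℕ) := EuclideanSpace ℝ (Fin d)

/-- The length of an unordered pair of points. -/
noncomputable def len {d : ℕ} (e : Sym2 (E d)) : ℝ :=
  Sym2.lift ⟨fun u v => dist u v, fun u v => dist_comm u v⟩ e

/-- The weight of a walk: the sum of the lengths of its edges. -/
noncomputable def wlen {d : ℕ} {G : SimpleGraph (E d)} {u v : E d} (p : G.Walk u v) : ℝ :=
  (p.edges.map len).sum

/-- The graph with edge set `H` contains a `uv`-path of weight at most `(1+ε)|uv|`. -/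
def HasShortPath {d : ℕ} (ε : ℝ) (H : Finset (Sym2 (E d))) (u v : E d) : Prop :=
  ∃ p : (SimpleGraph.fromEdgeSet (H : Set (Sym2 (E d)))).Walk u v, wlen p ≤ (1 + ε) * dist u v

open Classical in
/-- One step of the greedy algorithm: add the pair `e` to `H` unless `H` already contains a
path between its ends of weight at most `(1+ε)` times its length. -/
noncomputable def greedyStep {d : ℕ} (ε : ℝ) (H : Finset (Sym2 (E d))) (e : Sym2 (E d)) :
    Finset (Sym2 (E d)) :=
  if ∃ u v : E d, e = s(u, v) ∧ HasShortPath ε H u v then H else insert e H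

/-- The edge set produced by the greedy algorithm run on the list `L` of pairs. -/
noncomputable def greedy {d : ℕ} (ε : ℝ) (L : List (Sym2 (E d))) : Finset (Sym2 (E d)) :=
  L.foldl (greedyStep ε) ∅

/-- `L` lists the pairs of distinct points of `S`, each once, in order of nondecreasing length. -/
structure IsOrdering {d : ℕ} (S : Finset (E d)) (L : List (Sym2 (E d))) : Prop where
  nodup : L.Nodup
  mem_iff : ∀ e, e ∈ L ↔ ¬ e.IsDiag ∧ ∀ x ∈ e, x ∈ S
  sorted : L.Pairwise (fun e f => len e ≤ len f)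

section Basic

variable {d : ℕ}

@[simp] theorem len_mk (u v : E d) : len s(u, v) = dist u v := rfl

theorem len_nonneg (e : Sym2 (E d)) : 0 ≤ len e := by
  induction e with
  | _ u v => simp

@[simp] theorem wlen_nil {G : SimpleGraph (E d)} {u : E d} :
    wlen (SimpleGraph.Walk.nil : G.Walk u u) = 0 := by simp [wlen]

theorem wlen_cons {G : SimpleGraph (E d)} {u v w : E d} (h : G.Adj u v) (p : G.Walk v w) :
    wlen (SimpleGraph.Walk.cons h p) = dist u v + wlen p := by
  simp [wlen]

theorem wlen_append {G : SimpleGraph (E d)} {u v w : E d} (p : G.Walk u v) (q : G.Walk v w) :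
    wlen (p.append q) = wlen p + wlen q := by
  simp [wlen, SimpleGraph.Walk.edges_append]

theorem subset_step (ε : ℝ) (H : Finset (Sym2 (E d))) (e : Sym2 (E d)) :
    H ⊆ greedyStep ε H e := by
  unfold greedyStep
  split_ifs
  · exact subset_rfl
  · exact Finset.subset_insert _ _

theorem greedy_append_singleton (ε : ℝ) (L : List (Sym2 (E d))) (e : Sym2 (E d)) :
    greedy ε (L ++ [e]) = greedyStep ε (greedy ε L) e := by
  simp [greedy, List.foldl_append]

theorem greedy_subset_append (ε : ℝ) (L L' : List (Sym2 (E d))) :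
    greedy ε L ⊆ greedy ε (L ++ L') := by
  induction L' using List.reverseRecOn with
  | nil => simp
  | append_singleton M e ih =>
    rw [← List.append_assoc, greedy_append_singleton]
    exact ih.trans (subset_step _ _ _)

theorem mem_of_mem_greedy (ε : ℝ) (L : List (Sym2 (E d))) (e : Sym2 (E d))
    (h : e ∈ greedy ε L) : e ∈ L := by
  induction L using List.reverseRecOn with
  | nil => simp [greedy] at h
  | append_singleton M f ih =>
    rw [greedy_append_singleton] at h
    unfold greedyStep at h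
    split_ifs at h
    · exact List.mem_append_left _ (ih h)
    · rw [Finset.mem_insert] at h
      rcases h with h | h
      · simp [h]
      · exact List.mem_append_left _ (ih h)

/-- monotonicity of the path relation -/
theorem HasShortPath.mono {ε : ℝ} {H H' : Finset (Sym2 (E d))} (hH : H ⊆ H') {u v : E d}
    (h : HasShortPath ε H u v) : HasShortPath ε H' u v := by
  obtain ⟨p, hp⟩ := h
  have hle : SimpleGraph.fromEdgeSet (H : Set (Sym2 (E d))) ≤
      SimpleGraph.fromEdgeSet (H' : Set (Sym2 (E d))) :=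
    SimpleGraph.fromEdgeSet_mono (by exact_mod_cast hH)
  refine ⟨p.mapLe hle, ?_⟩
  unfold wlen at hp ⊢
  rw [SimpleGraph.Walk.edges_mapLe_eq_edges]
  exact hp

theorem HasShortPath.refl {ε : ℝ} (H : Finset (Sym2 (E d))) (u : E d) :
    HasShortPath ε H u u := ⟨SimpleGraph.Walk.nil, by simp⟩

theorem HasShortPath.of_edge {ε : ℝ} (hε : 0 ≤ ε) {H : Finset (Sym2 (E d))} {u v : E d}
    (h : s(u, v) ∈ H) : HasShortPath ε H u v := by
  by_cases huv : u = v
  · subst huv; exact HasShortPath.refl _ _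
  · have hadj : (SimpleGraph.fromEdgeSet (H : Set (Sym2 (E d)))).Adj u v := by
      rw [SimpleGraph.fromEdgeSet_adj]
      exact ⟨by exact_mod_cast h, huv⟩
    refine ⟨SimpleGraph.Walk.cons hadj SimpleGraph.Walk.nil, ?_⟩
    rw [wlen_cons, wlen_nil]
    have : 0 ≤ dist u v := dist_nonneg
    nlinarith

/-- After processing, every processed pair has a short path. -/
theorem processed {ε : ℝ} (hε : 0 ≤ ε) (L : List (Sym2 (E d))) :
    ∀ u v : E d, s(u, v) ∈ L → HasShortPath ε (greedy ε L) u v := by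
  induction L using List.reverseRecOn with
  | nil => intro u v h; simp at h
  | append_singleton M f ih =>
    intro u v h
    rw [greedy_append_singleton]
    rw [List.mem_append] at h
    rcases h with h | h
    · exact (ih u v h).mono (subset_step _ _ _)
    · rw [List.mem_singleton] at h
      unfold greedyStep
      split_ifs with hc
      · obtain ⟨u', v', hf, hp⟩ := hc
        rw [← h] at hf
        rw [Sym2.eq_iff] at hf
        rcases hf with ⟨rfl, rfl⟩ | ⟨rfl, rfl⟩
        · exact hp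
        · obtain ⟨p, hp⟩ := hp
          refine ⟨p.reverse, ?_⟩
          unfold wlen at hp ⊢
          rw [SimpleGraph.Walk.edges_reverse, List.map_reverse, List.sum_reverse, dist_comm]
          exact hp
      · exact HasShortPath.of_edge hε (by rw [h]; exact Finset.mem_insert_self _ _)

/-- When an edge of the output was processed, there was no short path between its ends. -/
theorem no_path {ε : ℝ} {L₁ L₂ : List (Sym2 (E d))} {e : Sym2 (E d)}
    (hnd : (L₁ ++ e :: L₂).Nodup) (h : e ∈ greedy ε (L₁ ++ e :: L₂)) :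
    ∀ u v : E d, e = s(u, v) → ¬ HasShortPath ε (greedy ε L₁) u v := by
  intro u v he hp
  have h1 : e ∉ greedy ε (L₁ ++ [e]) := by
    rw [greedy_append_singleton]
    unfold greedyStep
    rw [if_pos ⟨u, v, he, hp⟩]
    intro h2
    have h3 := mem_of_mem_greedy _ _ _ h2
    rw [List.nodup_append] at hnd
    exact hnd.2.2 _ h3 _ (by simp) rfl
  have h2 : ∀ L' : List (Sym2 (E d)), e ∉ L' → e ∉ greedy ε ((L₁ ++ [e]) ++ L') := by
    intro L'
    induction L' using List.reverseRecOn with
    | nil => intro _; simpa using h1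
    | append_singleton M f ih =>
      intro hM
      rw [List.mem_append, not_or] at hM
      rw [← List.append_assoc, greedy_append_singleton]
      unfold greedyStep
      split_ifs
      · exact ih hM.1
      · rw [Finset.mem_insert, not_or]
        refine ⟨?_, ih hM.1⟩
        intro hf
        exact hM.2 (by simp [hf])
  apply h2 L₂
  · rw [List.nodup_append] at hnd
    exact (List.nodup_cons.1 hnd.2.1).1
  · simpa using h

/-- If `e'` was processed before and belongs to the output, it belongs to the intermediate graph. -/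
theorem mem_before {ε : ℝ} {L₁ L₂ : List (Sym2 (E d))} {e' : Sym2 (E d)}
    (hnd : (L₁ ++ L₂).Nodup) (h1 : e' ∈ L₁) (h : e' ∈ greedy ε (L₁ ++ L₂)) :
    e' ∈ greedy ε L₁ := by
  induction L₂ using List.reverseRecOn with
  | nil => simpa using h
  | append_singleton M f ih =>
    rw [← List.append_assoc] at hnd h
    have hnd' : (L₁ ++ M).Nodup := (List.nodup_append.1 hnd).1
    apply ih hnd'
    rw [greedy_append_singleton] at h
    unfold greedyStep at h
    split_ifs at h
    · exact h
    · rw [Finset.mem_insert] at h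
      rcases h with h | h
      · exfalso
        rw [List.nodup_append] at hnd
        exact hnd.2.2 e' (List.mem_append_left _ h1) f (by simp) h
      · exact h

end Basic

section Packing

variable {d : ℕ}

/-- The geometric estimate. -/
theorem geom {ε r : ℝ} (hε : 0 < ε) (hε1 : ε ≤ 1) (p q p' q' : E d)
    (hr : 0 < r) (h1 : r ≤ dist p' q') (h2 : dist p' q' ≤ dist p q)
    (hp : dist p p' ≤ ε * r / 8)
    (hu : ‖(dist p q)⁻¹ • (q - p) - (dist p' q')⁻¹ • (q' - p')‖ ≤ ε / 4) :
    dist q' q < dist p q ∧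
    (1 + ε) * dist p p' + dist p' q' + (1 + ε) * dist q' q ≤ (1 + ε) * dist p q := by
  set D := dist p q with hD
  set D' := dist p' q' with hD'
  have hD'pos : 0 < D' := lt_of_lt_of_le hr h1
  have hDpos : 0 < D := lt_of_lt_of_le hD'pos h2
  set u := D⁻¹ • (q - p) with hudef
  set u' := D'⁻¹ • (q' - p') with hu'def
  have hq : q - p = D • u := by rw [hudef, smul_smul, mul_inv_cancel₀ hDpos.ne', one_smul]
  have hq' : q' - p' = D' • u' := by rw [hu'def, smul_smul, mul_inv_cancel₀ hD'pos.ne', one_smul]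
  have hnu : ‖u‖ = 1 := by
    rw [hudef, norm_smul, norm_inv, Real.norm_of_nonneg hDpos.le, ← dist_eq_norm, dist_comm q p,
      ← hD, inv_mul_cancel₀ hDpos.ne']
  have key : q - q' = (p - p') + (D - D') • u + D' • (u - u') := by
    have e1 : q = p + D • u := by rw [← hq]; abel
    have e2 : q' = p' + D' • u' := by rw [← hq']; abel
    rw [sub_smul, smul_sub]
    conv_lhs => rw [e1, e2]
    abel
  have hqq : dist q' q ≤ dist p p' + (D - D') + D' * (ε / 4) := by
    rw [dist_comm, dist_eq_norm, key]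
    calc ‖(p - p') + (D - D') • u + D' • (u - u')‖
        ≤ ‖(p - p') + (D - D') • u‖ + ‖D' • (u - u')‖ := norm_add_le _ _
      _ ≤ ‖p - p'‖ + ‖(D - D') • u‖ + ‖D' • (u - u')‖ := by
          gcongr; exact norm_add_le _ _
      _ ≤ dist p p' + (D - D') + D' * (ε / 4) := by
          rw [norm_smul (D - D') u, norm_smul D' (u - u'), hnu, Real.norm_of_nonneg (by linarith : (0:ℝ) ≤ D - D'),
            Real.norm_of_nonneg hD'pos.le, ← dist_eq_norm]
          have := mul_le_mul_of_nonneg_left hu hD'pos.le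
          linarith
  have h3 : ε * r ≤ ε * D' := mul_le_mul_of_nonneg_left h1 hε.le
  have h4 : ε * D' ≤ 1 * D' := mul_le_mul_of_nonneg_right hε1 hD'pos.le
  constructor
  · nlinarith
  · have h5 : dist p p' + dist q' q ≤ 2 * (ε * D' / 8) + (D - D') + D' * (ε / 4) := by linarith
    have h6 : (1 + ε) * (dist p p' + dist q' q) ≤
        (1 + ε) * (2 * (ε * D' / 8) + (D - D') + D' * (ε / 4)) :=
      mul_le_mul_of_nonneg_left h5 (by linarith)
    have h7 : ε * (ε * D') ≤ 1 * (ε * D') :=
      mul_le_mul_of_nonneg_right hε1 (mul_nonneg hε.le hD'pos.le)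
    nlinarith

/-- Two edges of the greedy spanner with nearby tails and directions do not coexist. -/
theorem packing {ε r : ℝ} (hε : 0 < ε) (hε1 : ε ≤ 1) {S : Finset (E d)} {L : List (Sym2 (E d))}
    (hL : IsOrdering S L) {p q p' q' : E d} (hr : 0 < r)
    (he : s(p, q) ∈ greedy ε L) (he' : s(p', q') ∈ greedy ε L) (hne : s(p, q) ≠ s(p', q'))
    (h1 : r ≤ dist p q) (h1' : r ≤ dist p' q')
    (hp : dist p p' ≤ ε * r / 8)
    (hu : ‖(dist p q)⁻¹ • (q - p) - (dist p' q')⁻¹ • (q' - p')‖ ≤ ε / 4) : False := by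
  -- the case where `e'` is processed first
  have main : ∀ p q p' q' : E d, s(p, q) ∈ greedy ε L → s(p', q') ∈ greedy ε L →
      r ≤ dist p' q' → dist p p' ≤ ε * r / 8 →
      ‖(dist p q)⁻¹ • (q - p) - (dist p' q')⁻¹ • (q' - p')‖ ≤ ε / 4 →
      ∀ L₁ L₂, L = L₁ ++ s(p, q) :: L₂ → s(p', q') ∈ L₁ → False := by
    intro p q p' q' he he' h1' hp hu L₁ L₂ hsplit hmem
    have hnd := hL.nodup
    have hsorted := hL.sorted
    rw [hsplit] at hnd hsorted
    have hle : dist p' q' ≤ dist p q := by
      have := (List.pairwise_append.1 hsorted).2.2 _ hmem s(p, q) (by simp)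
      simpa using this
    obtain ⟨g1, g2⟩ := geom hε hε1 p q p' q' hr h1' hle hp hu
    -- strictly shorter pairs were processed
    have hbefore : ∀ a ∈ S, ∀ b ∈ S, dist a b < dist p q → HasShortPath ε (greedy ε L₁) a b := by
      intro a ha b hb hab
      by_cases hne : a = b
      · subst hne; exact HasShortPath.refl _ _
      · apply processed hε.le
        have hm : s(a, b) ∈ L := by
          rw [hL.mem_iff]
          refine ⟨by simpa using hne, ?_⟩
          intro x hx
          rw [Sym2.mem_iff] at hx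
          rcases hx with rfl | rfl <;> assumption
        rw [hsplit, List.mem_append, List.mem_cons] at hm
        rcases hm with hm | hm | hm
        · exact hm
        · exfalso
          have := congrArg len hm
          simp only [len_mk] at this
          linarith
        · exfalso
          have h2 := (List.pairwise_append.1 hsorted).2.1
          rw [List.pairwise_cons] at h2
          have := h2.1 _ hm
          simp only [len_mk] at this
          linarith
    have hS : ∀ a b : E d, s(a, b) ∈ greedy ε L → a ∈ S ∧ b ∈ S := by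
      intro a b hab
      have h := (hL.mem_iff _).1 (mem_of_mem_greedy _ _ _ hab)
      exact ⟨h.2 a (by simp), h.2 b (by simp)⟩
    have hpS := hS p q he
    have hpS' := hS p' q' he'
    have hrle : ε * r / 8 < dist p q := by
      have : ε * r ≤ 1 * r := mul_le_mul_of_nonneg_right hε1 hr.le
      linarith
    obtain ⟨w1, hw1⟩ := hbefore p hpS.1 p' hpS'.1 (lt_of_le_of_lt hp hrle)
    obtain ⟨w2, hw2⟩ := hbefore q' hpS'.2 q hpS.2 g1
    have hmem1 : s(p', q') ∈ greedy ε L₁ := by
      apply mem_before (L₂ := s(p, q) :: L₂) hnd hmem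
      rw [← hsplit]; exact he'
    have hadj : (SimpleGraph.fromEdgeSet (greedy ε L₁ : Set (Sym2 (E d)))).Adj p' q' := by
      rw [SimpleGraph.fromEdgeSet_adj]
      refine ⟨by exact_mod_cast hmem1, ?_⟩
      intro h
      rw [h, dist_self] at h1'
      linarith
    refine no_path (ε := ε) hnd (by rw [← hsplit]; exact he) p q rfl
      ⟨w1.append (SimpleGraph.Walk.cons hadj w2), ?_⟩
    rw [wlen_append, wlen_cons]
    linarith
  have hmL := mem_of_mem_greedy _ _ _ he
  have hmL' := mem_of_mem_greedy _ _ _ he'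
  obtain ⟨L₁, L₂, hsplit⟩ := List.append_of_mem hmL
  rw [hsplit, List.mem_append, List.mem_cons] at hmL'
  rcases hmL' with h | h | h
  · exact main p q p' q' he he' h1' hp hu L₁ L₂ hsplit h
  · exact hne h.symm
  · obtain ⟨M₁, M₂, hM⟩ := List.append_of_mem h
    refine main p' q' p q he' he h1 (by rwa [dist_comm]) (by rwa [norm_sub_rev])
      (L₁ ++ s(p, q) :: M₁) M₂ ?_ (by simp)
    rw [hsplit, hM]
    simp

end Packing

section Counting

variable {d : ℕ}

theorem norm_le_of_coord {x : E d} {c : ℝ} (hd : 1 ≤ d) (h : ∀ i, |x i| ≤ c) : ‖x‖ ≤ d * c := by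
  have hc : 0 ≤ c := le_trans (abs_nonneg _) (h ⟨0, hd⟩)
  have hdR : (1 : ℝ) ≤ d := by exact_mod_cast hd
  rw [EuclideanSpace.norm_eq]
  apply Real.sqrt_le_iff.2
  refine ⟨by positivity, ?_⟩
  calc ∑ i, ‖x i‖ ^ 2 ≤ ∑ _i : Fin d, c ^ 2 := by
        apply Finset.sum_le_sum
        intro i _
        have := h i
        rw [Real.norm_eq_abs]
        exact pow_le_pow_left₀ (abs_nonneg _) this 2
    _ = d * c ^ 2 := by simp
    _ ≤ (d * c) ^ 2 := by
        rw [mul_pow]
        apply mul_le_mul_of_nonneg_right _ (by positivity)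
        nlinarith

theorem normalize_close {V : Type*} [NormedAddCommGroup V] [NormedSpace ℝ V] {w w' : V}
    (h1 : 1 ≤ ‖w‖) (h1' : 1 ≤ ‖w'‖) :
    ‖(‖w‖)⁻¹ • w - (‖w'‖)⁻¹ • w'‖ ≤ 2 * ‖w - w'‖ := by
  have hw : (0 : ℝ) < ‖w‖ := by linarith
  have hw' : (0 : ℝ) < ‖w'‖ := by linarith
  have e : (‖w‖)⁻¹ • w - (‖w'‖)⁻¹ • w' = (‖w‖)⁻¹ • (w - w') + ((‖w‖)⁻¹ - (‖w'‖)⁻¹) • w' := by
    rw [smul_sub, sub_smul]; abel
  rw [e]
  have hinv : (‖w‖)⁻¹ ≤ 1 := inv_le_one_of_one_le₀ h1
  have hi0 : 0 ≤ (‖w‖)⁻¹ := by positivity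
  have a1 : ‖(‖w‖)⁻¹ • (w - w')‖ ≤ ‖w - w'‖ := by
    rw [norm_smul, Real.norm_of_nonneg hi0]
    calc (‖w‖)⁻¹ * ‖w - w'‖ ≤ 1 * ‖w - w'‖ := mul_le_mul_of_nonneg_right hinv (norm_nonneg _)
      _ = _ := one_mul _
  have a2 : ‖((‖w‖)⁻¹ - (‖w'‖)⁻¹) • w'‖ ≤ ‖w - w'‖ := by
    rw [norm_smul, Real.norm_eq_abs]
    have e2 : (‖w‖)⁻¹ - (‖w'‖)⁻¹ = (‖w'‖ - ‖w‖) * ((‖w‖)⁻¹ * (‖w'‖)⁻¹) := by
      field_simp
    rw [e2, abs_mul, abs_of_nonneg (by positivity : 0 ≤ (‖w‖)⁻¹ * (‖w'‖)⁻¹)]
    have h3 : |‖w'‖ - ‖w‖| ≤ ‖w - w'‖ := by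
      rw [abs_sub_comm]; exact abs_norm_sub_norm_le w w'
    calc |‖w'‖ - ‖w‖| * ((‖w‖)⁻¹ * (‖w'‖)⁻¹) * ‖w'‖ = |‖w'‖ - ‖w‖| * (‖w‖)⁻¹ := by
          field_simp
      _ ≤ ‖w - w'‖ * 1 := mul_le_mul h3 hinv hi0 (norm_nonneg _)
      _ = _ := mul_one _
  calc _ ≤ _ := norm_add_le _ _
    _ ≤ _ := by linarith

/-- An index of a largest coordinate. -/
theorem exists_imax (hd : 1 ≤ d) (v : E d) : ∃ i, ∀ j, |v j| ≤ |v i| := by
  have : Nonempty (Fin d) := ⟨⟨0, hd⟩⟩
  obtain ⟨i, hi⟩ := Finite.exists_max (fun j => |v j|)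
  exact ⟨i, hi⟩

theorem floor_close {a b s : ℝ} (hs : 0 < s) (h : ⌊a / s⌋ = ⌊b / s⌋) : |a - b| ≤ s := by
  have h1 := Int.abs_sub_lt_one_of_floor_eq_floor h
  rw [← sub_div, abs_div, abs_of_pos hs, div_lt_one hs] at h1
  exact h1.le

/-- The number of greedy edges of length at least `r`. -/
theorem count_edges (hd : 1 ≤ d) {ε r : ℝ} (hε : 0 < ε) (hε1 : ε ≤ 1) (hr : 0 < r)
    {S : Finset (E d)} {L : List (Sym2 (E d))} (hL : IsOrdering S L)
    (hS : ∀ x ∈ S, ∀ i, 0 ≤ x i ∧ x i ≤ 1) :
    (((greedy ε L).filter (fun e => r ≤ len e)).card : ℝ) ≤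
      (2 * d * (19 * d / ε) ^ (d - 1)) * min (S.card : ℝ) ((8 * d / (ε * r) + 1) ^ d) := by
  classical
  have hdR : (1 : ℝ) ≤ d := by exact_mod_cast hd
  have hd0 : (0 : ℝ) < d := by linarith
  -- representatives
  have hrep : ∀ e : Sym2 (E d), ∃ p : E d × E d, e = s(p.1, p.2) := by
    intro e
    induction e with
    | _ u v => exact ⟨(u, v), rfl⟩
  choose R hR using hrep
  choose im him using exists_imax hd (d := d)
  set s : ℝ := ε * r / (8 * d) with hs
  have hspos : 0 < s := by positivity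
  set s' : ℝ := ε / (8 * d) with hs'
  have hs'pos : 0 < s' := by positivity
  set M : ℤ := ⌈1 / s'⌉ with hM
  let cell : E d → (Fin d → ℤ) := fun x i => ⌊x i / s⌋
  let V : Sym2 (E d) → E d := fun e => (R e).2 - (R e).1
  let bins : (i : Fin d) → Finset (Fin d → ℤ) := fun i =>
    Fintype.piFinset (fun j => if j = i then {0} else Finset.Icc (-M) M)
  let key : Sym2 (E d) → (Fin d → ℤ) × (Σ _ : Fin d, (Fin d → ℤ)) × Bool := fun e =>
    (cell (R e).1, ⟨im (V e), fun j => if j = im (V e) then 0 else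
      ⌊(V e j / |V e (im (V e))|) / s'⌋⟩, decide (0 < V e (im (V e))))
  set F := (greedy ε L).filter (fun e => r ≤ len e) with hF
  have hlen : ∀ e, len e = dist (R e).1 (R e).2 := by
    intro e
    conv_lhs => rw [hR e]
    simp
  have hVpos : ∀ e ∈ F, 0 < |V e (im (V e))| := by
    intro e he
    rw [hF, Finset.mem_filter] at he
    by_contra hcon
    have h0 : |V e (im (V e))| ≤ 0 := not_lt.1 hcon
    have h1 : ‖V e‖ ≤ d * 0 := norm_le_of_coord hd (fun i => (him (V e) i).trans h0)
    have h2 := he.2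
    rw [hlen, dist_comm, dist_eq_norm] at h2
    simp only [V] at h1
    linarith
  have hinj : Set.InjOn key F := by
    intro e he e' he' hkey
    by_contra hne
    have hVe := hVpos e he
    have hVe' := hVpos e' he'
    have heF : e ∈ F := he
    have heF' : e' ∈ F := he'
    rw [hF, Finset.mem_filter] at heF heF'
    simp only [key, Prod.mk.injEq, Sigma.mk.injEq] at hkey
    obtain ⟨k1, ⟨k2, k3⟩, k4⟩ := hkey
    have k3 := eq_of_heq k3
    -- positions
    have hpos : dist (R e).1 (R e').1 ≤ ε * r / 8 := by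
      rw [dist_eq_norm]
      have : ‖(R e).1 - (R e').1‖ ≤ d * s := by
        apply norm_le_of_coord hd
        intro i
        have h := congrFun k1 i
        simp only [cell] at h
        have := floor_close hspos h
        simpa using this
      calc _ ≤ _ := this
        _ = ε * r / 8 := by rw [hs]; field_simp
    -- directions
    set i := im (V e) with hi
    set t := |V e i| with ht
    set t' := |V e' i| with ht'
    have htpos : 0 < t := hVe
    have ht'pos : 0 < t' := by rw [ht', k2]; exact hVe'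
    set w : E d := t⁻¹ • V e with hw
    set w' : E d := t'⁻¹ • V e' with hw'
    have hwi : w i = w' i := by
      simp only [hw, hw', PiLp.smul_apply, smul_eq_mul]
      rw [← k2] at k4
      by_cases hpos' : 0 < V e i
      · have : 0 < V e' i := by simpa [hpos'] using k4
        rw [ht, ht', abs_of_pos hpos', abs_of_pos this, inv_mul_cancel₀ hpos'.ne',
          inv_mul_cancel₀ this.ne']
      · have h2 : ¬ 0 < V e' i := by simpa [hpos'] using k4
        have h3 : V e i < 0 := lt_of_le_of_ne (not_lt.1 hpos') (abs_pos.1 htpos)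
        have h4 : V e' i < 0 := lt_of_le_of_ne (not_lt.1 h2) (abs_pos.1 ht'pos)
        rw [ht, ht', abs_of_neg h3, abs_of_neg h4, inv_neg, inv_neg, neg_mul, neg_mul,
          inv_mul_cancel₀ h3.ne, inv_mul_cancel₀ h4.ne]
    have hwj : ∀ j, |(w - w') j| ≤ s' := by
      intro j
      by_cases hj : j = i
      · rw [hj]
        simp only [PiLp.sub_apply, hwi, sub_self, abs_zero]
        exact hs'pos.le
      · have h := congrFun k3 j
        rw [← k2] at h
        simp only [if_neg hj] at h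
        have := floor_close hs'pos h
        have e1 : (w - w') j = V e j / |V e i| - V e' j / |V e' i| := by
          simp only [hw, hw', PiLp.sub_apply, PiLp.smul_apply, smul_eq_mul, ht, ht']
          ring
        rw [e1]
        exact this
    have hnw : ‖w - w'‖ ≤ ε / 8 := by
      calc _ ≤ d * s' := norm_le_of_coord hd hwj
        _ = ε / 8 := by rw [hs']; field_simp
    have habs1 : |w i| = 1 := by
      simp only [hw, PiLp.smul_apply, smul_eq_mul, abs_mul, abs_inv]
      rw [ht, abs_abs, inv_mul_cancel₀]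
      exact htpos.ne'
    have habs2 : |w' i| = 1 := by rw [← hwi]; exact habs1
    have hn1 : 1 ≤ ‖w‖ := by
      rw [← habs1, ← Real.norm_eq_abs]; exact PiLp.norm_apply_le w i
    have hn2 : 1 ≤ ‖w'‖ := by
      rw [← habs2, ← Real.norm_eq_abs]; exact PiLp.norm_apply_le w' i
    have hdir := normalize_close hn1 hn2
    have hu1 : (‖w‖)⁻¹ • w = (dist (R e).1 (R e).2)⁻¹ • ((R e).2 - (R e).1) := by
      have : dist (R e).1 (R e).2 = ‖V e‖ := by rw [dist_comm, dist_eq_norm]
      rw [this, hw, norm_smul, norm_inv, Real.norm_of_nonneg htpos.le, smul_smul]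
      congr 1
      field_simp
    have hu2 : (‖w'‖)⁻¹ • w' = (dist (R e').1 (R e').2)⁻¹ • ((R e').2 - (R e').1) := by
      have : dist (R e').1 (R e').2 = ‖V e'‖ := by rw [dist_comm, dist_eq_norm]
      rw [this, hw', norm_smul, norm_inv, Real.norm_of_nonneg ht'pos.le, smul_smul]
      congr 1
      field_simp
    rw [hu1, hu2] at hdir
    refine packing hε hε1 hL (p := (R e).1) (q := (R e).2) (p' := (R e').1) (q' := (R e').2) hr
      ?_ ?_ ?_ ?_ ?_ hpos (by linarith)
    · rw [← hR e]; exact heF.1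
    · rw [← hR e']; exact heF'.1
    · rw [← hR e, ← hR e']; exact hne
    · rw [← hlen]; exact heF.2
    · rw [← hlen]; exact heF'.2
  -- counting
  have hmaps : ∀ e ∈ F, key e ∈ (S.image cell) ×ˢ ((Finset.univ.sigma bins) ×ˢ Finset.univ) := by
    intro e he
    have hVe := hVpos e he
    rw [hF, Finset.mem_filter] at he
    have hmem := (hL.mem_iff _).1 (mem_of_mem_greedy _ _ _ he.1)
    have hRmem : (R e).1 ∈ e := by
      have h := Sym2.mem_mk_left (R e).1 (R e).2
      rwa [← hR e] at h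
    have hpS : (R e).1 ∈ S := hmem.2 _ hRmem
    rw [Finset.mem_product, Finset.mem_product, Finset.mem_sigma]
    refine ⟨Finset.mem_image_of_mem _ hpS, ⟨Finset.mem_univ _, ?_⟩, Finset.mem_univ _⟩
    simp only [key, bins, Fintype.mem_piFinset]
    intro j
    by_cases hj : j = im (V e)
    · simp [hj]
    · simp only [if_neg hj, Finset.mem_Icc]
      have h1 : |(V e j / |V e (im (V e))|)| ≤ 1 := by
        rw [abs_div, abs_abs, div_le_one hVe]
        exact him (V e) j
      rw [abs_le] at h1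
      have h2 : (1 : ℝ) / s' ≤ M := Int.le_ceil _
      constructor
      · rw [Int.le_floor]
        push_cast
        rw [le_div_iff₀ hs'pos]
        rw [div_le_iff₀ hs'pos] at h2
        linarith
      · have h3 : ((⌊(V e j / |V e (im (V e))|) / s'⌋ : ℤ) : ℝ) ≤ (M : ℝ) := by
          calc _ ≤ (V e j / |V e (im (V e))|) / s' := Int.floor_le _
            _ ≤ 1 / s' := by gcongr; exact h1.2
            _ ≤ M := h2
        exact_mod_cast h3
  have hcard := Finset.card_le_card_of_injOn key hmaps hinj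
  rw [Finset.card_product, Finset.card_product, Finset.card_sigma] at hcard
  -- bins
  have hMnn : (0 : ℝ) ≤ 2 * M + 1 := by
    have : (1 : ℝ) / s' ≤ M := Int.le_ceil _
    have h2 : (0:ℝ) < 1 / s' := by positivity
    linarith
  have hMnn' : 0 ≤ 2 * M + 1 := by exact_mod_cast hMnn
  have hbin : ∀ i, ((bins i).card : ℝ) = (2 * M + 1 : ℝ) ^ (d - 1) := by
    intro i
    simp only [bins, Fintype.card_piFinset]
    rw [← Finset.mul_prod_erase Finset.univ _ (Finset.mem_univ i)]
    simp only [if_true, Finset.card_singleton, one_mul]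
    rw [Finset.prod_congr rfl (g := fun _ => (Finset.Icc (-M) M).card)]
    · rw [Finset.prod_const, Finset.card_erase_of_mem (Finset.mem_univ i), Finset.card_univ,
        Fintype.card_fin, Int.card_Icc]
      push_cast
      congr 1
      have e : M + 1 - -M = 2 * M + 1 := by ring
      rw [e]
      have : (((2 * M + 1).toNat : ℤ) : ℝ) = ((2 * M + 1 : ℤ) : ℝ) := by
        rw [Int.toNat_of_nonneg hMnn']
      push_cast at this
      exact this
    · intro j hj
      rw [Finset.mem_erase] at hj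
      rw [if_neg hj.1]
  have hMle : (2 * M + 1 : ℝ) ≤ 19 * d / ε := by
    have h1 : (M : ℝ) < 1 / s' + 1 := Int.ceil_lt_add_one _
    have h2 : (1 : ℝ) / s' = 8 * d / ε := by rw [hs']; field_simp
    rw [h2] at h1
    have h3 : (1 : ℝ) ≤ d / ε := by rw [le_div_iff₀ hε]; linarith
    have h4 : 19 * (d : ℝ) / ε = 2 * (8 * d / ε) + 3 * (d / ε) := by ring
    rw [h4]
    linarith
  have hcells1 : ((S.image cell).card : ℝ) ≤ S.card := by exact_mod_cast Finset.card_image_le
  have hcells2 : ((S.image cell).card : ℝ) ≤ (8 * d / (ε * r) + 1) ^ d := by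
    have hsub : S.image cell ⊆ Fintype.piFinset (fun _ : Fin d => Finset.Icc 0 ⌊1 / s⌋) := by
      intro c hc
      rw [Finset.mem_image] at hc
      obtain ⟨x, hx, rfl⟩ := hc
      rw [Fintype.mem_piFinset]
      intro i
      simp only [cell, Finset.mem_Icc]
      constructor
      · exact Int.floor_nonneg.2 (div_nonneg (hS x hx i).1 hspos.le)
      · apply Int.floor_le_floor
        gcongr
        exact (hS x hx i).2
    have h1 := Finset.card_le_card hsub
    rw [Fintype.card_piFinset] at h1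
    simp only [Int.card_Icc, Finset.prod_const, Finset.card_univ, Fintype.card_fin] at h1
    have h2 : (((⌊1 / s⌋ + 1 - 0).toNat : ℕ) : ℝ) ≤ 8 * d / (ε * r) + 1 := by
      have h3 : 0 ≤ ⌊1 / s⌋ := Int.floor_nonneg.2 (by positivity)
      have h4 : (((⌊1 / s⌋ + 1 - 0).toNat : ℤ) : ℝ) = ((⌊1 / s⌋ + 1 : ℤ) : ℝ) := by
        rw [Int.toNat_of_nonneg (by omega)]; simp
      have h5 : ((⌊1 / s⌋ : ℤ) : ℝ) ≤ 1 / s := Int.floor_le _
      have h6 : (1 : ℝ) / s = 8 * d / (ε * r) := by rw [hs]; field_simp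
      have h7 := h5.trans_eq h6
      push_cast at h4
      rw [h4]
      linarith
    calc ((S.image cell).card : ℝ) ≤ ((((⌊1 / s⌋ + 1 - 0).toNat) ^ d : ℕ) : ℝ) := by
          exact_mod_cast h1
      _ = (((⌊1 / s⌋ + 1 - 0).toNat : ℕ) : ℝ) ^ d := by push_cast; rfl
      _ ≤ _ := pow_le_pow_left₀ (by positivity) h2 d
  have hcardR : (F.card : ℝ) ≤ (S.image cell).card * ((∑ i, ((bins i).card : ℝ)) * 2) := by
    have := (Nat.cast_le (α := ℝ)).2 hcard
    push_cast at this
    simpa using this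
  have hsumb : (∑ i : Fin d, ((bins i).card : ℝ)) ≤ d * (19 * d / ε) ^ (d - 1) := by
    calc (∑ i : Fin d, ((bins i).card : ℝ)) = ∑ _i : Fin d, (2 * M + 1 : ℝ) ^ (d - 1) :=
          Finset.sum_congr rfl (fun i _ => hbin i)
      _ = d * (2 * M + 1 : ℝ) ^ (d - 1) := by simp
      _ ≤ d * (19 * d / ε) ^ (d - 1) := by gcongr
  have hmin : ((S.image cell).card : ℝ) ≤ min (S.card : ℝ) ((8 * d / (ε * r) + 1) ^ d) :=
    le_min hcells1 hcells2
  calc (F.card : ℝ) ≤ _ := hcardR
    _ ≤ min (S.card : ℝ) ((8 * d / (ε * r) + 1) ^ d) * ((d * (19 * d / ε) ^ (d - 1)) * 2) :=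
        mul_le_mul hmin (mul_le_mul_of_nonneg_right hsumb (by norm_num))
          (mul_nonneg (Finset.sum_nonneg (fun i _ => Nat.cast_nonneg _)) (by norm_num))
          (le_min (Nat.cast_nonneg _) (by positivity))
    _ = _ := by ring

end Counting

section Final

theorem key_min {d : ℕ} (hd : 2 ≤ d) {N y : ℝ} (hN : 0 < N) (hy : 0 < y) :
    min (N ^ d) (y ^ d) * ((N + 2 * y) * (N + y)) ≤ 6 * N ^ d * y ^ 2 := by
  obtain ⟨m, rfl⟩ := Nat.exists_eq_add_of_le hd
  rcases le_total y N with h | h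
  · have h1 : y ^ (2 + m) ≤ y ^ 2 * N ^ m := by
      rw [pow_add]; gcongr
    calc min (N ^ (2 + m)) (y ^ (2 + m)) * ((N + 2 * y) * (N + y))
        ≤ (y ^ 2 * N ^ m) * ((N + 2 * N) * (N + N)) := by
          have := min_le_right (N ^ (2 + m)) (y ^ (2 + m))
          gcongr
          exact this.trans h1
      _ = _ := by ring
  · calc min (N ^ (2 + m)) (y ^ (2 + m)) * ((N + 2 * y) * (N + y))
        ≤ N ^ (2 + m) * ((y + 2 * y) * (y + y)) := by
          have := min_le_left (N ^ (2 + m)) (y ^ (2 + m))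
          gcongr
      _ = _ := by ring

theorem sum_bound {d : ℕ} (hd : 2 ≤ d) {a N : ℝ} (ha : 0 < a) (hN : 0 < N) (K : ℕ) :
    ∑ k ∈ Finset.range K, (1 / 2 ^ k : ℝ) * min (N ^ d) ((a * 2 ^ k) ^ d) ≤
      6 * a * N ^ (d - 1) * ((a * 2 ^ K) / (N + a * 2 ^ K)) := by
  induction K with
  | zero => simp only [Finset.range_zero, Finset.sum_empty]; positivity
  | succ K ih =>
    rw [Finset.sum_range_succ]
    set y : ℝ := a * 2 ^ K with hy
    have hypos : 0 < y := by positivity
    have h1 := key_min hd hN hypos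
    have e1 : (1 / 2 ^ K : ℝ) = a / y := by rw [hy]; field_simp
    have e2 : a * 2 ^ (K + 1) = 2 * y := by rw [hy]; ring
    rw [e1, e2]
    have h2 : a / y * min (N ^ d) (y ^ d) ≤
        6 * a * N ^ (d - 1) * (2 * y / (N + 2 * y)) - 6 * a * N ^ (d - 1) * (y / (N + y)) := by
      have e3 : 6 * a * N ^ (d - 1) * (2 * y / (N + 2 * y)) - 6 * a * N ^ (d - 1) * (y / (N + y))
          = a / y * ((6 * N ^ d * y ^ 2) / ((N + 2 * y) * (N + y))) := by
        have e4 : N ^ d = N ^ (d - 1) * N := by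
          rw [← pow_succ]; congr 1; omega
        rw [e4]
        field_simp
        ring
      rw [e3]
      apply mul_le_mul_of_nonneg_left _ (by positivity)
      rw [le_div_iff₀ (by positivity)]
      exact h1
    linarith

theorem sum_bound' {d : ℕ} (hd : 2 ≤ d) {a N : ℝ} (ha : 0 < a) (hN : 0 < N) (K : ℕ) :
    ∑ k ∈ Finset.range K, (1 / 2 ^ k : ℝ) * min (N ^ d) ((a * 2 ^ k) ^ d) ≤
      6 * a * N ^ (d - 1) := by
  refine (sum_bound hd ha hN K).trans ?_
  apply mul_le_of_le_one_right (by positivity)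
  rw [div_le_one (by positivity)]
  linarith

/-- A scale for each length in `(0, d]`. -/
theorem exists_scale {D x : ℝ} (hD : 0 < D) (hx : 0 < x) (hxD : x ≤ D) :
    ∃ k : ℕ, D / 2 ^ k ≤ x ∧ x ≤ 2 * (D / 2 ^ k) := by
  classical
  have hex : ∃ k : ℕ, D / 2 ^ k ≤ x := by
    obtain ⟨k, hk⟩ := pow_unbounded_of_one_lt (D / x) (by norm_num : (1 : ℝ) < 2)
    refine ⟨k, ?_⟩
    rw [div_lt_iff₀ hx] at hk
    rw [div_le_iff₀ (by positivity)]
    linarith
  refine ⟨Nat.find hex, Nat.find_spec hex, ?_⟩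
  rcases Nat.eq_zero_or_pos (Nat.find hex) with h0 | hpos
  · rw [h0, pow_zero, div_one]; linarith
  · obtain ⟨m, hm⟩ : ∃ m, Nat.find hex = m + 1 := ⟨Nat.find hex - 1, by omega⟩
    have h1 : ¬ D / 2 ^ m ≤ x := Nat.find_min hex (by omega)
    rw [hm, pow_succ]
    have h3 : 2 * (D / (2 ^ m * 2)) = D / 2 ^ m := by field_simp
    rw [h3]
    exact (not_le.1 h1).le

/-- The weight bound with an explicit constant. -/
theorem weight_bound {d : ℕ} (hd : 2 ≤ d) {ε : ℝ} (hε : 0 < ε) (hε1 : ε ≤ 1)
    (S : Finset (E d)) (hS : ∀ x ∈ S, ∀ i, 0 ≤ x i ∧ x i ≤ 1)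
    (L : List (Sym2 (E d))) (hL : IsOrdering S L) :
    ∑ e ∈ greedy ε L, len e ≤
      (216 * (d : ℝ) ^ 2 * (19 * d) ^ (d - 1)) * ε ^ (-(d : ℝ)) *
        (S.card : ℝ) ^ (((d : ℝ) - 1) / d) := by
  classical
  have hd1 : 1 ≤ d := by omega
  have hdR : (1 : ℝ) ≤ d := by exact_mod_cast hd1
  have hd0 : (0 : ℝ) < d := by linarith
  -- facts about edges
  have hmemS : ∀ e ∈ greedy ε L, ¬ e.IsDiag ∧ ∀ x ∈ e, x ∈ S := fun e he =>
    (hL.mem_iff e).1 (mem_of_mem_greedy _ _ _ he)
  have hpos : ∀ e ∈ greedy ε L, 0 < len e := by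
    intro e he
    have h := (hmemS e he).1
    induction e with
    | _ u v => rw [len_mk, dist_pos]; simpa using h
  have hle : ∀ e ∈ greedy ε L, len e ≤ d := by
    intro e he
    have h := (hmemS e he).2
    induction e with
    | _ u v =>
      rw [len_mk, dist_eq_norm]
      have hu := hS u (h u (Sym2.mem_mk_left u v))
      have hv := hS v (h v (Sym2.mem_mk_right u v))
      have h3 : ∀ i, |(u - v) i| ≤ 1 := by
        intro i
        rw [PiLp.sub_apply, abs_le]
        constructor <;> linarith [(hu i).1, (hu i).2, (hv i).1, (hv i).2]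
      have h4 := norm_le_of_coord hd1 h3
      linarith
  rcases Nat.eq_zero_or_pos S.card with hcard0 | hcardpos
  · have hS0 : S = ∅ := Finset.card_eq_zero.1 hcard0
    have hg0 : greedy ε L = ∅ := by
      rw [Finset.eq_empty_iff_forall_notMem]
      intro e he
      have h := (hmemS e he).2
      induction e with
      | _ u v =>
        have := h u (Sym2.mem_mk_left u v)
        rw [hS0] at this
        simp at this
    rw [hg0, Finset.sum_empty]
    positivity
  have hcardR : (0 : ℝ) < S.card := by exact_mod_cast hcardpos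
  set N : ℝ := (S.card : ℝ) ^ (1 / (d : ℝ)) with hN
  have hNpos : 0 < N := Real.rpow_pos_of_pos hcardR _
  have hNd : N ^ d = S.card := by
    rw [hN, ← Real.rpow_natCast, ← Real.rpow_mul hcardR.le, one_div, inv_mul_cancel₀ hd0.ne',
      Real.rpow_one]
  have hNd1 : N ^ (d - 1) = (S.card : ℝ) ^ (((d : ℝ) - 1) / d) := by
    rw [hN, ← Real.rpow_natCast, ← Real.rpow_mul hcardR.le]
    congr 1
    rw [Nat.cast_sub hd1, Nat.cast_one]
    ring
  have hscale : ∀ e : Sym2 (E d), ∃ k : ℕ, e ∈ greedy ε L →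
      (d : ℝ) / 2 ^ k ≤ len e ∧ len e ≤ 2 * (d / 2 ^ k) := by
    intro e
    by_cases he : e ∈ greedy ε L
    · obtain ⟨k, hk⟩ := exists_scale hd0 (hpos e he) (hle e he)
      exact ⟨k, fun _ => hk⟩
    · exact ⟨0, fun h => absurd h he⟩
  choose κ hκ using hscale
  set K : ℕ := (greedy ε L).sup κ + 1 with hK
  set a : ℝ := 9 / ε with ha
  have hapos : 0 < a := by positivity
  set B : ℝ := 2 * d * (19 * d / ε) ^ (d - 1) with hB
  have hBpos : 0 < B := by positivity
  have hcount : ∀ k : ℕ, (((greedy ε L).filter (fun e => (d : ℝ) / 2 ^ k ≤ len e)).card : ℝ) ≤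
      B * min (N ^ d) ((a * 2 ^ k) ^ d) := by
    intro k
    have h1 := count_edges hd1 hε hε1 (r := (d : ℝ) / 2 ^ k) (by positivity) hL hS
    refine h1.trans ?_
    rw [hNd]
    have h2 : 8 * (d : ℝ) / (ε * (d / 2 ^ k)) + 1 ≤ a * 2 ^ k := by
      have e1 : 8 * (d : ℝ) / (ε * (d / 2 ^ k)) = 8 * (2 ^ k / ε) := by field_simp
      have e2 : a * 2 ^ k = 9 * (2 ^ k / ε) := by rw [ha]; ring
      have h3 : (1 : ℝ) ≤ 2 ^ k / ε := by
        rw [le_div_iff₀ hε]
        have : (1 : ℝ) ≤ 2 ^ k := one_le_pow₀ (by norm_num)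
        linarith
      rw [e1, e2]; linarith
    have h4 : (8 * (d : ℝ) / (ε * (d / 2 ^ k)) + 1) ^ d ≤ (a * 2 ^ k) ^ d :=
      pow_le_pow_left₀ (by positivity) h2 d
    exact mul_le_mul_of_nonneg_left (min_le_min_left _ h4) hBpos.le
  calc ∑ e ∈ greedy ε L, len e
      ≤ ∑ e ∈ greedy ε L, ∑ k ∈ Finset.range K,
          (if (d : ℝ) / 2 ^ k ≤ len e then 2 * ((d : ℝ) / 2 ^ k) else 0) := by
        apply Finset.sum_le_sum
        intro e he
        have h1 := hκ e he
        have h2 : κ e ∈ Finset.range K := by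
          rw [Finset.mem_range, hK]
          have := Finset.le_sup (f := κ) he
          omega
        calc len e ≤ 2 * (d / 2 ^ (κ e)) := h1.2
          _ = (if (d : ℝ) / 2 ^ (κ e) ≤ len e then 2 * ((d : ℝ) / 2 ^ (κ e)) else 0) := by
              rw [if_pos h1.1]
          _ ≤ _ := Finset.single_le_sum
              (f := fun k : ℕ => if (d : ℝ) / 2 ^ k ≤ len e then 2 * ((d : ℝ) / 2 ^ k) else 0)
              (fun k _ => by split_ifs <;> positivity) h2
    _ = ∑ k ∈ Finset.range K, 2 * ((d : ℝ) / 2 ^ k) *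
          (((greedy ε L).filter (fun e => (d : ℝ) / 2 ^ k ≤ len e)).card : ℝ) := by
        rw [Finset.sum_comm]
        apply Finset.sum_congr rfl
        intro k _
        rw [← Finset.sum_filter, Finset.sum_const, nsmul_eq_mul, mul_comm]
    _ ≤ ∑ k ∈ Finset.range K, 2 * ((d : ℝ) / 2 ^ k) * (B * min (N ^ d) ((a * 2 ^ k) ^ d)) := by
        apply Finset.sum_le_sum
        intro k _
        exact mul_le_mul_of_nonneg_left (hcount k) (by positivity)
    _ = (2 * d * B) * ∑ k ∈ Finset.range K, (1 / 2 ^ k : ℝ) * min (N ^ d) ((a * 2 ^ k) ^ d) := by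
        rw [Finset.mul_sum]
        apply Finset.sum_congr rfl
        intro k _
        ring
    _ ≤ (2 * d * B) * (6 * a * N ^ (d - 1)) :=
        mul_le_mul_of_nonneg_left (sum_bound' hd hapos hNpos K) (by positivity)
    _ = _ := by
        rw [hNd1, hB, ha, Real.rpow_neg hε.le, Real.rpow_natCast]
        have e1 : ε ^ d = ε ^ (d - 1) * ε := by rw [← pow_succ]; congr 1; omega
        rw [e1, div_pow]
        field_simp
        ring

end Final

/-- For each `d ≥ 2` there is a constant `C` such that every greedy `(1+ε)`-spanner of every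
`n`-point set in the unit cube has weight at most `C ε^(-d) n^((d-1)/d)`. -/
theorem result : ∀ d : ℕ, 2 ≤ d → ∃ C : ℝ, ∀ ε : ℝ, 0 < ε → ε ≤ 1 →
    ∀ S : Finset (E d), (∀ x ∈ S, ∀ i, 0 ≤ x i ∧ x i ≤ 1) →
    ∀ L : List (Sym2 (E d)), IsOrdering S L →
      ∑ e ∈ greedy ε L, len e ≤ C * ε ^ (-(d : ℝ)) * (S.card : ℝ) ^ (((d : ℝ) - 1) / d) := by
  intro d hd
  exact ⟨216 * (d : ℝ) ^ 2 * (19 * d) ^ (d - 1), fun ε hε hε1 S hS L hL =>
    weight_bound hd hε hε1 S hS L hL⟩

end Pool.Agent.Results.MP_259de8_co.NoLog
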