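import Pool.Agent.Lib.MP_259de8_co.G.Main

/-!
# Weight of greedy spanners in the unit square: exponent 15/8

There is an absolute constant `C` such that every greedy `(1+ε)`-spanner of every finite set `S` of points of
the unit square has weight at most `C ε^(-15/8) √|S|`.

The definitions (`len`, `wlen`, `HasShortPath`, `greedyStep`, `greedy`, `IsOrdering`) are those of
`Pool.Agent.MP_259de8.Greedy`, the same as in the hand-in `NoLog`; the proof is in the folder
`Pool/Agent/Lib/MP_259de8_co/G`.
-/

set_option autoImplicit false

namespace Pool.Agent.Results.MP_259de8_co.PlanarFifteenEighths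

open Pool.Agent.MP_259de8 Pool.Agent.MP_259de8.Greedy

/-- There is a constant `C` such that for every `ε ∈ (0,1]`, every finite set `S` of points of the unit square
and every list `L` of the pairs of `S` in order of nondecreasing length, the greedy `(1+ε)`-spanner has weight
at most `C ε^(-15/8) |S|^(1/2)`. -/
theorem result : ∃ C : ℝ, ∀ ε : ℝ, 0 < ε → ε ≤ 1 →
    ∀ S : Finset (E 2), (∀ x ∈ S, ∀ i, 0 ≤ x i ∧ x i ≤ 1) →
    ∀ L : List (Sym2 (E 2)), IsOrdering S L →
      ∑ e ∈ greedy ε L, len e ≤ C * ε ^ (-(15 / 8 : ℝ)) * Real.sqrt S.card :=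
  main

end Pool.Agent.Results.MP_259de8_co.PlanarFifteenEighths
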